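import Mathlib
import Pool.Agent.Lib_helper97.PENT.FinalA
import Pool.Agent.Lib_helper1.ZO.J
import Pool.Agent.Lib_helper88.NCF.NE8
import Pool.Agent.Lib_helper15.TPF.Main
import Pool.Agent.Lib_helper15.UPAF.DGM
import Pool.Agent.Lib_helper15.UPAF.UBM
import Pool.Agent.Lib_helper15.UPAF.UC3
import Pool.Agent.Lib_helper15.UPAF.UC4
import Pool.Agent.Lib_helper18.PENMF.Mar
import Pool.Agent.Lib_helper39.COVF.All

/-!
# A zero-one law for completely multiplicative functions along `n² + b²`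

Let `h` be completely multiplicative with values `1` and `-1`. If `h(p) = 1` for `p = 2` and for all
primes `p ≡ 1 mod 4`, then `h(n² + b²) = 1` for all `n` and `b ≥ 1`. Otherwise, for every `b ≥ 1`,
both values are taken by `h(n² + b²)` with positive lower density: with `c / b` for the value `1`,
where `c` is absolute, and with `c(p) / b` for the value `-1`, for each prime `p = 2` or
`p ≡ 1 mod 4` with `h(p) = -1`. In particular the mean values of the Liouville function along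
`n² + b²` are bounded away from `1` and `-1`.
-/

namespace Pool.Agent.Results.MP_892e4c_nt.ZeroOneLaw

/-- The Liouville function extended to the integers: `λ(0) = 0` and, for `m ≠ 0`,
`λ(m) = (-1)^Ω(|m|)`, where `Ω` counts prime factors with multiplicity. -/
def liouville (m : ℤ) : ℤ :=
  if m = 0 then 0 else (-1) ^ (ArithmeticFunction.cardFactors m.natAbs)

/-- Completely multiplicative functions on the positive integers with values `1` and `-1`. -/
structure SignFunction (h : ℕ → ℤ) : Prop where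
  values : ∀ m : ℕ, 1 ≤ m → h m = 1 ∨ h m = -1
  mul : ∀ m n : ℕ, 1 ≤ m → 1 ≤ n → h (m * n) = h m * h n

theorem SignFunction.cm {h : ℕ → ℤ} (hh : SignFunction h) : PENT.CM h :=
  ⟨fun m n hm hn => hh.mul m n hm hn, fun n hn => hh.values n hn⟩

theorem SignFunction.sq {h : ℕ → ℤ} (hh : SignFunction h) {b : ℕ} (hb : 1 ≤ b) :
    h (b ^ 2) = 1 := by
  rw [pow_two, hh.mul b b hb hb]
  rcases hh.values b hb with h3 | h3 <;> rw [h3] <;> norm_num

theorem sgn_liouville : SignFunction (fun n => liouville n) := by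
  constructor
  · intro m hm
    have h0 : (m : ℤ) ≠ 0 := by exact_mod_cast (by omega : m ≠ 0)
    simp only [liouville, if_neg h0, Int.natAbs_natCast]
    exact neg_one_pow_eq_or ℤ _
  · intro m n hm hn
    have h0 : (m : ℤ) ≠ 0 := by exact_mod_cast (by omega : m ≠ 0)
    have h1 : (n : ℤ) ≠ 0 := by exact_mod_cast (by omega : n ≠ 0)
    have h2 : ((m * n : ℕ) : ℤ) ≠ 0 := by
      push_cast
      exact mul_ne_zero h0 h1
    simp only [liouville, if_neg h0, if_neg h1, if_neg h2, Int.natAbs_natCast]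
    rw [ArithmeticFunction.cardFactors_mul (by omega) (by omega), pow_add]

theorem liouville_two : liouville ((2 : ℕ) : ℤ) = -1 := by
  unfold liouville
  rw [if_neg (by norm_num), Int.natAbs_natCast,
    ArithmeticFunction.cardFactors_apply_prime Nat.prime_two]
  norm_num

theorem one_of_primes {h : ℕ → ℤ} (hh : SignFunction h) : ∀ m : ℕ, 1 ≤ m →
    (∀ p : ℕ, p.Prime → p ∣ m → h p = 1) → h m = 1 := by
  intro m
  induction m using Nat.recOnMul with
  | zero => intro h0; omega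
  | one =>
    intro _ _
    have h1 := hh.mul 1 1 le_rfl le_rfl
    rcases hh.values 1 le_rfl with h2 | h2
    · exact h2
    · rw [mul_one, h2] at h1; norm_num at h1
  | prime p hp => intro _ hall; exact hall p hp dvd_rfl
  | mul a b iha ihb =>
    intro hab hall
    have ha : 1 ≤ a := Nat.one_le_iff_ne_zero.2 (by rintro rfl; simp at hab)
    have hb : 1 ≤ b := Nat.one_le_iff_ne_zero.2 (by rintro rfl; simp at hab)
    rw [hh.mul a b ha hb, iha ha (fun p hp hd => hall p hp (hd.mul_right b)),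
      ihb hb (fun p hp hd => hall p hp (hd.mul_left a)), one_mul]

theorem prime_dvd_of_coprime {p n b : ℕ} (hp : p.Prime) (hc : Nat.Coprime n b)
    (hd : p ∣ n ^ 2 + b ^ 2) : p % 4 ≠ 3 := by
  have : Fact p.Prime := ⟨hp⟩
  have hb : ¬ p ∣ b := by
    intro h
    have h1 : p ∣ n ^ 2 := by
      have h2 : p ∣ b ^ 2 := dvd_pow h two_ne_zero
      exact (Nat.dvd_add_left h2).1 hd
    have h3 := hp.dvd_of_dvd_pow h1
    exact hp.one_lt.ne' (Nat.dvd_one.1 (hc ▸ Nat.dvd_gcd h3 h))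
  have hb' : (b : ZMod p) ≠ 0 := fun h => hb ((ZMod.natCast_eq_zero_iff _ _).1 h)
  have h1 : ((n ^ 2 + b ^ 2 : ℕ) : ZMod p) = 0 := (ZMod.natCast_eq_zero_iff _ _).2 hd
  push_cast at h1
  refine ZMod.mod_four_ne_three_of_sq_eq_neg_one (y := (n : ZMod p) / (b : ZMod p)) ?_
  field_simp
  linear_combination h1

/-- the trivial case -/
theorem trivial_case {h : ℕ → ℤ} (hh : SignFunction h)
    (hall : ∀ p : ℕ, p.Prime → p % 4 ≠ 3 → h p = 1) (n b : ℕ) (hb : 1 ≤ b) :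
    h (n ^ 2 + b ^ 2) = 1 := by
  obtain ⟨g, n', b', hg, hc, hn, hb'⟩ := Nat.exists_coprime' (m := n) (n := b)
    (Nat.gcd_pos_of_pos_right _ hb)
  have e : n ^ 2 + b ^ 2 = g ^ 2 * (n' ^ 2 + b' ^ 2) := by
    rw [hn, hb']
    ring
  have hb1 : 1 ≤ b' := by
    rcases Nat.eq_zero_or_pos b' with h0 | h0
    · rw [h0, zero_mul] at hb'
      omega
    · exact h0
  have h2 : 1 ≤ n' ^ 2 + b' ^ 2 := by nlinarith
  rw [e, hh.mul _ _ (Nat.one_le_pow _ _ hg) h2, hh.sq hg, one_mul]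
  apply one_of_primes hh _ h2
  intro p hp hd
  exact hall p hp (prime_dvd_of_coprime hp hc hd)

/-- restriction to the multiples of `b`: `(b m)² + b² = b² (m² + 1)` -/
theorem dilate {h : ℕ → ℤ} (hh : SignFunction h) {s : ℤ} {c x₀ : ℝ}
    (H : ∀ x : ℝ, x₀ ≤ x →
      c * x ≤ (((Finset.Icc 1 ⌊x⌋₊).filter (fun n => h (n ^ 2 + 1) = s)).card : ℝ))
    {b : ℕ} (hb : 1 ≤ b) : ∀ x : ℝ, b * x₀ ≤ x →
      c / b * x ≤ (((Finset.Icc 1 ⌊x⌋₊).filter (fun n => h (n ^ 2 + b ^ 2) = s)).card : ℝ) := by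
  intro x hx
  have hb0 : (0 : ℝ) < b := by exact_mod_cast hb
  have h1 : x₀ ≤ x / b := by
    rw [le_div_iff₀ hb0]
    linarith
  have h2 := H (x / b) h1
  have e : c / b * x = c * (x / b) := by ring
  rw [e]
  refine h2.trans ?_
  have hsq : h (b ^ 2) = 1 := hh.sq hb
  have h4 : ((Finset.Icc 1 ⌊x / b⌋₊).filter (fun n => h (n ^ 2 + 1) = s)).card ≤
      ((Finset.Icc 1 ⌊x⌋₊).filter (fun n => h (n ^ 2 + b ^ 2) = s)).card := by
    apply Finset.card_le_card_of_injOn (fun m => b * m)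
    · intro m hm
      simp only [Finset.coe_filter, Finset.mem_Icc, Set.mem_ofPred_eq] at hm ⊢
      obtain ⟨⟨m1, m2⟩, m3⟩ := hm
      have hxb : 0 ≤ x / b := by
        by_contra hneg
        rw [not_le] at hneg
        rw [Nat.floor_of_nonpos hneg.le] at m2
        omega
      have hx0 : 0 ≤ x := by
        have := mul_nonneg hxb hb0.le
        rwa [div_mul_cancel₀ _ hb0.ne'] at this
      refine ⟨⟨by nlinarith, ?_⟩, ?_⟩
      · rw [Nat.le_floor_iff hx0]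
        rw [Nat.le_floor_iff hxb] at m2
        rw [le_div_iff₀ hb0] at m2
        push_cast
        linarith
      · have e1 : (b * m) ^ 2 + b ^ 2 = b ^ 2 * (m ^ 2 + 1) := by ring
        rw [e1, hh.mul _ _ (Nat.one_le_pow _ _ hb) (by omega), hsq, one_mul, m3]
    · intro m _ m' _ hmm
      exact Nat.eq_of_mul_eq_mul_left hb hmm
  exact_mod_cast h4

/-- the value `1`: the constants do not depend on `h` -/
theorem plus : ∃ c : ℝ, 0 < c ∧ ∃ x₀ : ℝ, ∀ h : ℕ → ℤ, SignFunction h → ∀ x : ℝ, x₀ ≤ x →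
    c * x ≤ (((Finset.Icc 1 ⌊x⌋₊).filter (fun n => h (n ^ 2 + 1) = 1)).card : ℝ) := by
  obtain ⟨c, hc, N, H⟩ := PENT.pentagon
  refine ⟨c / 2, by positivity, N + 2, ?_⟩
  intro h hh x hx
  have hN : (0 : ℝ) ≤ N := Nat.cast_nonneg _
  have h1 : N ≤ ⌊x⌋₊ := Nat.le_floor (by linarith)
  have h2 := H h hh.cm ⌊x⌋₊ h1
  have h3 : x < (⌊x⌋₊ : ℝ) + 1 := Nat.lt_floor_add_one x
  have h4 : x / 2 ≤ (⌊x⌋₊ : ℝ) := by linarith
  have h5 : c / 2 * x = c * (x / 2) := by ring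
  rw [h5]
  exact (mul_le_mul_of_nonneg_left h4 hc.le).trans h2

/-- from the two signs to the sum -/
theorem sum_le {f : ℕ → ℤ} {N : ℕ} (hf : ∀ n ∈ Finset.Icc 1 N, f n = 1 ∨ f n = -1) {x a : ℝ}
    (hN : (N : ℝ) ≤ x) (hp : a ≤ (((Finset.Icc 1 N).filter (fun n => f n = 1)).card : ℝ))
    (hm : a ≤ (((Finset.Icc 1 N).filter (fun n => f n = -1)).card : ℝ)) :
    |((∑ n ∈ Finset.Icc 1 N, f n : ℤ) : ℝ)| ≤ x - 2 * a := by
  have h1 : ∑ n ∈ Finset.Icc 1 N, f n =
      (((Finset.Icc 1 N).filter (fun n => f n = 1)).card : ℤ) -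
        (((Finset.Icc 1 N).filter (fun n => f n = -1)).card : ℤ) := by
    have h2 : ∀ n ∈ Finset.Icc 1 N, f n =
        (if f n = 1 then 1 else 0) - (if f n = -1 then 1 else 0) := by
      intro n hn
      rcases hf n hn with h3 | h3 <;> rw [h3] <;> norm_num
    rw [Finset.sum_congr rfl h2, Finset.sum_sub_distrib, Finset.sum_boole, Finset.sum_boole]
  have h3 : (((Finset.Icc 1 N).filter (fun n => f n = 1)).card : ℝ) +
      (((Finset.Icc 1 N).filter (fun n => f n = -1)).card : ℝ) = N := by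
    have h4 : (Finset.Icc 1 N).filter (fun n => f n = -1) =
        (Finset.Icc 1 N).filter (fun n => ¬ f n = 1) := by
      apply Finset.filter_congr
      intro n hn
      rcases hf n hn with h5 | h5 <;> rw [h5] <;> norm_num
    rw [h4]
    have h6 := Finset.card_filter_add_card_filter_not (s := Finset.Icc 1 N) (fun n => f n = 1)
    rw [Nat.card_Icc] at h6
    have h7 : ((Finset.Icc 1 N).filter (fun n => f n = 1)).card +
        ((Finset.Icc 1 N).filter (fun n => ¬ f n = 1)).card = N := by omega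
    exact_mod_cast h7
  rw [h1, abs_le]
  push_cast
  constructor <;> linarith

/-- **The zero-one law.** (1) the value `1`, uniformly in `h`; (2) the value `-1`; (3) the trivial
case; (4) the Liouville function. -/
theorem result :
    (∃ c : ℝ, 0 < c ∧ ∃ x₀ : ℝ, ∀ h : ℕ → ℤ, SignFunction h → ∀ b : ℕ, 1 ≤ b →
      ∀ x : ℝ, b * x₀ ≤ x →
        c / b * x ≤ (((Finset.Icc 1 ⌊x⌋₊).filter (fun n => h (n ^ 2 + b ^ 2) = 1)).card : ℝ)) ∧
    (∀ p : ℕ, p.Prime → p % 4 ≠ 3 → ∃ c : ℝ, 0 < c ∧ ∃ x₀ : ℝ, ∀ h : ℕ → ℤ, SignFunction h →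
      h p = -1 → ∀ b : ℕ, 1 ≤ b → ∀ x : ℝ, b * x₀ ≤ x →
        c / b * x ≤ (((Finset.Icc 1 ⌊x⌋₊).filter (fun n => h (n ^ 2 + b ^ 2) = -1)).card : ℝ)) ∧
    (∀ h : ℕ → ℤ, SignFunction h → (∀ p : ℕ, p.Prime → p % 4 ≠ 3 → h p = 1) →
      ∀ n b : ℕ, 1 ≤ b → h (n ^ 2 + b ^ 2) = 1) ∧
    (∃ c : ℝ, 0 < c ∧ ∃ x₀ : ℝ, ∀ b : ℕ, 1 ≤ b → ∀ x : ℝ, b * x₀ ≤ x →
      |((∑ n ∈ Finset.Icc 1 ⌊x⌋₊, liouville ((n : ℤ) ^ 2 + (b : ℤ) ^ 2) : ℤ) : ℝ)| ≤
        (1 - c / b) * x) := by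
  have hP : ∃ c : ℝ, 0 < c ∧ ∃ x₀ : ℝ, ∀ h : ℕ → ℤ, SignFunction h → ∀ b : ℕ, 1 ≤ b →
      ∀ x : ℝ, b * x₀ ≤ x →
        c / b * x ≤ (((Finset.Icc 1 ⌊x⌋₊).filter (fun n => h (n ^ 2 + b ^ 2) = 1)).card : ℝ) := by
    obtain ⟨c, hc, x₀, H⟩ := plus
    exact ⟨c, hc, x₀, fun h hh b hb => dilate hh (H h hh) hb⟩
  have hM : ∀ p : ℕ, p.Prime → p % 4 ≠ 3 → ∃ c : ℝ, 0 < c ∧ ∃ x₀ : ℝ, ∀ h : ℕ → ℤ,
      SignFunction h → h p = -1 → ∀ b : ℕ, 1 ≤ b → ∀ x : ℝ, b * x₀ ≤ x →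
        c / b * x ≤
          (((Finset.Icc 1 ⌊x⌋₊).filter (fun n => h (n ^ 2 + b ^ 2) = -1)).card : ℝ) := by
    intro p hp h4
    have hF : ∀ δ C1 : ℝ, 0 < δ → 1 ≤ C1 → PATH.Fam01 δ C1 := fun δ C1 hδ hC1 =>
      PATH.NC.part_one 10 (by decide) (by norm_num) TPA.LB_all UPA.UB_all UPA.UB1_all
        UPA.UB2_all UPA.DG_all PENM.neg_all (PENM.mar_all UPA.DG_all UPA.DGN_all)
        PENT.COV.cov_all δ C1 hδ hC1
    obtain ⟨c, hc, x₀, H⟩ := ZO.zero_one_of_fam hF hp h4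
    refine ⟨c, hc, x₀, fun h hh hhp b hb => dilate hh (fun x hx => ?_) hb⟩
    exact H h hh.cm hhp x hx (-1) (Or.inr rfl)
  refine ⟨hP, hM, fun h hh hall n b hb => trivial_case hh hall n b hb, ?_⟩
  obtain ⟨c₁, hc₁, x₁, H₁⟩ := hP
  obtain ⟨c₂, hc₂, x₂, H₂⟩ := hM 2 Nat.prime_two (by norm_num)
  set c := min c₁ c₂ with hcd
  have hc : 0 < c := lt_min hc₁ hc₂
  refine ⟨2 * c, by positivity, max (max x₁ x₂) 0, fun b hb x hx => ?_⟩
  have hb0 : (0 : ℝ) < b := by exact_mod_cast hb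
  have hx1 : (b : ℝ) * x₁ ≤ x := le_trans (mul_le_mul_of_nonneg_left
    ((le_max_left _ _).trans (le_max_left _ _)) hb0.le) hx
  have hx2 : (b : ℝ) * x₂ ≤ x := le_trans (mul_le_mul_of_nonneg_left
    ((le_max_right _ _).trans (le_max_left _ _)) hb0.le) hx
  have hx0 : 0 ≤ x := le_trans (mul_nonneg hb0.le (le_max_right _ _)) hx
  have a1 := H₁ (fun n => liouville n) sgn_liouville b hb x hx1
  have a2 := H₂ (fun n => liouville n) sgn_liouville liouville_two b hb x hx2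
  have e : ∀ n : ℕ, liouville ((n : ℤ) ^ 2 + (b : ℤ) ^ 2) =
      (fun n : ℕ => liouville n) (n ^ 2 + b ^ 2) := by
    intro n
    show _ = liouville (((n ^ 2 + b ^ 2 : ℕ)) : ℤ)
    push_cast
    rfl
  have hval : ∀ n ∈ Finset.Icc 1 ⌊x⌋₊, liouville ((n : ℤ) ^ 2 + (b : ℤ) ^ 2) = 1 ∨
      liouville ((n : ℤ) ^ 2 + (b : ℤ) ^ 2) = -1 := by
    intro n _
    rw [e n]
    exact sgn_liouville.values _ (by nlinarith)
  have h5 : c / b * x ≤ c₁ / b * x := mul_le_mul_of_nonneg_right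
    (div_le_div_of_nonneg_right (min_le_left _ _) hb0.le) hx0
  have h6 : c / b * x ≤ c₂ / b * x := mul_le_mul_of_nonneg_right
    (div_le_div_of_nonneg_right (min_le_right _ _) hb0.le) hx0
  have h7 := sum_le hval (x := x) (a := c / b * x) (Nat.floor_le hx0)
    (by simp only [e]; exact h5.trans a1) (by simp only [e]; exact h6.trans a2)
  have h8 : (1 - 2 * c / b) * x = x - 2 * (c / b * x) := by ring
  rw [h8]
  exact h7

end Pool.Agent.Results.MP_892e4c_nt.ZeroOneLaw
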